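import Pool.Agent.Helper11_COV.Stmt

set_option autoImplicit false

/-!
Squad COV, module SMP (helper4): the small phase is sound.
-/

namespace Pool.Agent.COV.H4

open Finset Classical

theorem sq_eq {α : Type} (n : ℕ) (f : ℕ → α) : sq n f = f n := by
  cases n <;> rfl

theorem le_cd (a b : ℕ) : (a : ℝ) / b ≤ (cd a b : ℕ) := by
  unfold cd
  rcases Nat.eq_zero_or_pos b with rfl | hb
  · simp
  · have hb' : (0 : ℝ) < b := by exact_mod_cast hb
    rw [div_le_iff₀ hb']
    have h := Nat.lt_div_mul_add hb (a := a)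
    have h2 : a ≤ (a / b + 1) * b := by
      rw [Nat.add_mul, one_mul]
      exact h.le
    exact_mod_cast h2

theorem gap (hB : BkiStmt) (c : ℕ → ℕ) (C : ℕ) (m : ML) (M1 M2 T : ℕ) (n n' : ℕ) (h : n ≤ n')
    (h0 : ∀ q, n ≤ q → q < n' → q.Prime → c q = 0) (hI : Inv c C n m M1 M2 T) :
    Inv c C n' m M1 M2 T := by
  induction n', h using Nat.le_induction with
  | base => exact hI
  | succ k hk ih =>
    have h1 := ih fun q h2 h3 h4 => h0 q h2 (by omega) h4
    refine hB.2.2.2 c C k m M1 M2 T ?_ h1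
    by_cases hp : k.Prime
    · exact Or.inr (h0 k hk (by omega) hp)
    · exact Or.inl hp

/-- Abel summation -/
theorem abel (q d : ℕ → ℝ) (hd : ∀ k, 0 ≤ d k) (hq0 : q 0 ≤ 1) (hq : ∀ j, 0 ≤ q j)
    (hqd : ∀ j, q (j + 1) ≤ q j) (J : ℕ) :
    0 ≤ d 1 + ∑ j ∈ range J, q j * (d (j + 2) - d (j + 1)) := by
  have key : ∀ J : ℕ, q J * d (J + 1) ≤ d 1 + ∑ j ∈ range J, q j * (d (j + 2) - d (j + 1)) := by
    intro J
    induction J with
    | zero =>
      simp only [range_zero, sum_empty, add_zero, zero_add]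
      have := mul_le_mul_of_nonneg_right hq0 (hd 1)
      linarith
    | succ J ih =>
      rw [Finset.sum_range_succ]
      have h1 := mul_le_mul_of_nonneg_right (hqd J) (hd (J + 2))
      have e : q (J + 1) * d (J + 1 + 1) = q (J + 1) * d (J + 2) := rfl
      rw [e]
      linarith
  exact (mul_nonneg (hq J) (hd (J + 1))).trans (key J)

theorem pt_mul (s : ℝ) {k : ℕ} (hk : 0 < k) (x : ℕ) : pt s (k * x) = k * pt (s / k) x := by
  unfold pt
  have hk' : (0 : ℝ) < k := by exact_mod_cast hk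
  rw [mul_max_of_nonneg _ _ hk'.le, mul_zero]
  congr 1
  push_cast
  field_simp

theorem step (hD : DdpStmt) (hS : DdsStmt) (hM : MlaStmt) (hU : UpdStmt) (c : ℕ → ℕ) (C : ℕ)
    (a : Sm) (hC : SmC c C a) (m : ML) (M1 M2 T : ℕ) (hI : Inv c C a.p m M1 M2 T) :
    Inv c C (a.p + 1) (upd C a.p a.wd (a.wd - a.t * a.wn) a.J m a.J)
      (M1 + cd (M1 * a.wn) (a.wd - a.t * a.wn))
      (M2 + cd (M2 * (a.wd * a.sn)) ((a.wd - a.t * a.wn) * a.sd))
      (T + cd ((M1 + phi a.t 1 m - a.t * SC) * a.wn) (a.wd - a.t * a.wn)) := by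
  obtain ⟨hp, hwd, hsd, hw1, hw2, hJ1, hJc, htw, hwp, htC⟩ := hC
  obtain ⟨W, t, hG, h1, h2, h3, h4⟩ := hI
  obtain ⟨D1, D2, D3, D4⟩ := hD
  obtain ⟨-, -, A3, -, A5, A6⟩ := hM
  set D : ℕ := a.wd - a.t * a.wn with hDdef
  have hDpos : 0 < D := by omega
  have hDr : (D : ℝ) = a.wd - a.t * a.wn := by
    rw [hDdef, Nat.cast_sub htw.le]
    push_cast
    ring
  have hDr0 : (0 : ℝ) < D := by exact_mod_cast hDpos
  have hwd0 : (0 : ℝ) < a.wd := by exact_mod_cast hwd
  have hsd0 : (0 : ℝ) < a.sd := by exact_mod_cast hsd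
  have hp0 : (0 : ℝ) < a.p := by exact_mod_cast hp.pos
  have hp1 : (1 : ℝ) < a.p := by exact_mod_cast hp.one_lt
  set W' : ℕ → ℝ := Function.update W a.p ((a.wn : ℝ) / a.wd) with hW'
  set t' : ℕ → ℝ := Function.update t a.p (a.t : ℝ) with ht'
  have hWp : W' a.p = (a.wn : ℝ) / a.wd := by rw [hW', Function.update_self]
  have htp : t' a.p = (a.t : ℝ) := by rw [ht', Function.update_self]
  have hWq : ∀ q, q < a.p → W' q = W q := fun q hq => by
    rw [hW', Function.update_of_ne hq.ne]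
  have htq : ∀ q, q < a.p → t' q = t q := fun q hq => by
    rw [ht', Function.update_of_ne hq.ne]
  have hnuq : ∀ q, q < a.p → nu W' t' q = nu W t q := fun q hq => by
    unfold nu
    rw [hWq q hq, htq q hq]
  have hsub : 1 - W' a.p * t' a.p = (D : ℝ) / a.wd := by
    rw [hWp, htp, hDr]
    field_simp
  have hnup : nu W' t' a.p = (a.wd : ℝ) / D := by
    unfold nu
    rw [hsub, one_div_div]
  have hDDq : ∀ q, q ≤ a.p → ∀ f, DD c (nu W' t') q f = DD c (nu W t) q f := fun q hq f =>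
    D4 c _ _ q f fun r hr _ => hnuq r (lt_of_lt_of_le hr hq)
  have hG' : Good c (a.p + 1) W' t' := by
    intro q hq hqp
    rcases Nat.lt_or_ge q a.p with hlt | hge
    · rw [hWq q hlt, htq q hlt]
      exact hG q hlt hqp
    · have : q = a.p := by omega
      subst this
      refine ⟨by rw [hWp]; exact hw1, by rw [htp]; positivity, ?_, ?_⟩
      · have : 0 < 1 - W' a.p * t' a.p := by
          rw [hsub]
          positivity
        linarith
      · rw [hsub, one_div_div, div_le_iff₀ hDr0]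
        have : ((a.wd : ℕ) : ℝ) ≤ ((D * a.p : ℕ) : ℝ) := by exact_mod_cast hwp
        push_cast at this
        linarith
  have hν : ∀ q < a.p + 1, q.Prime → 0 ≤ nu W' t' q ∧ nu W' t' q ≤ q := by
    intro q hq hqp
    obtain ⟨-, -, g3, g4⟩ := hG' q hq hqp
    refine ⟨?_, g4⟩
    unfold nu
    have : 0 < 1 - W' q * t' q := by linarith
    positivity
  obtain ⟨S1, S2, S3, S4⟩ := hS c (nu W' t') a.p hp hν
  have hν0 : 0 ≤ nu W' t' a.p := (hν a.p (by omega) hp).1
  have hM10 : (0 : ℝ) ≤ M1 := by positivity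
  have hM20 : (0 : ℝ) ≤ M2 := by positivity
  refine ⟨W', t', hG', ?_, ?_, ?_, ?_⟩
  · -- puts
    intro s hs
    have hP : ∀ k : ℕ, 0 < k → (SC : ℝ) * DD c (nu W' t') a.p (fun x => pt s (k * x)) ≤
        Phi m (fun x => pt s (k * x)) := by
      intro k hk
      have hk' : (0 : ℝ) < k := by exact_mod_cast hk
      have hk1 : (1 : ℝ) ≤ k := by exact_mod_cast hk
      rw [S4 s k hk, hDDq a.p le_rfl]
      have hsk : s / k ≤ C := by
        rw [div_le_iff₀ hk']
        have hC0 : (0 : ℝ) ≤ C := by positivity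
        nlinarith
      have h := h1 (s / k) hsk
      have e : Phi m (fun x => pt s (k * x)) = k * Phi m (pt (s / k)) := by
        rw [← A6]
        congr 1
        funext x
        exact pt_mul s hk x
      rw [e]
      calc (SC : ℝ) * ((k : ℝ) * DD c (nu W t) a.p (pt (s / k)))
          = k * ((SC : ℝ) * DD c (nu W t) a.p (pt (s / k))) := by ring
        _ ≤ k * Phi m (pt (s / k)) := mul_le_mul_of_nonneg_left h hk'.le
    have hup := hU C a.p a.wd D a.J m s hs hDpos hp.one_lt hJ1 hwp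
    refine le_trans ?_ hup
    have hs3 := S3 s a.J hJc
    have hSC0 : (0 : ℝ) ≤ (SC : ℕ) := by positivity
    refine (mul_le_mul_of_nonneg_left hs3 hSC0).trans ?_
    set q : ℕ → ℝ := fun j => ((a.wd : ℝ) / D) / (a.p : ℝ) ^ (j + 1) with hq
    have hν1 : ((a.wd : ℝ) / D) ≤ a.p := by
      rw [← hnup]
      exact (hν a.p (by omega) hp).2
    have hab := abel q (fun k => Phi m (fun x => pt s (max k 1 * x)) -
      (SC : ℝ) * DD c (nu W' t') a.p (fun x => pt s (max k 1 * x)))
      (fun k => sub_nonneg.2 (hP (max k 1) (by positivity)))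
      (by
        rw [hq]
        simp only [zero_add, pow_one]
        rw [div_le_one hp0]
        exact hν1)
      (fun j => by rw [hq]; positivity)
      (fun j => by
        rw [hq]
        simp only
        refine div_le_div_of_nonneg_left (by positivity) (by positivity) ?_
        exact pow_le_pow_right₀ hp1.le (by omega)) a.J
    have e1 : ∀ j : ℕ, max (j + 2) 1 = j + 2 := fun j => by omega
    have e2 : ∀ j : ℕ, max (j + 1) 1 = j + 1 := fun j => by omega
    simp only [e1, e2, one_mul, zero_add] at hab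
    have e3 : DD c (nu W' t') a.p (fun x => pt s x) = DD c (nu W' t') a.p (pt s) := rfl
    have e4 : Phi m (fun x => pt s x) = Phi m (pt s) := rfl
    rw [e3, e4] at hab
    rw [hnup]
    have e5 : ∑ j ∈ range a.J, q j * (Phi m (fun x => pt s ((j + 2) * x)) -
        (SC : ℝ) * DD c (nu W' t') a.p (fun x => pt s ((j + 2) * x)) -
        (Phi m (fun x => pt s ((j + 1) * x)) -
        (SC : ℝ) * DD c (nu W' t') a.p (fun x => pt s ((j + 1) * x)))) =
        ∑ j ∈ range a.J, q j * (Phi m (fun x => pt s ((j + 2) * x)) -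
          Phi m (fun x => pt s ((j + 1) * x))) -
        (SC : ℝ) * ∑ j ∈ range a.J, q j * (DD c (nu W' t') a.p (fun x => pt s ((j + 2) * x)) -
          DD c (nu W' t') a.p (fun x => pt s ((j + 1) * x))) := by
      rw [Finset.mul_sum, ← Finset.sum_sub_distrib]
      refine Finset.sum_congr rfl fun j _ => ?_
      ring
    rw [e5] at hab
    linarith
  · -- mean
    rw [S1, hDDq a.p le_rfl, hnup]
    have k1 := le_cd (M1 * a.wn) D
    push_cast at k1 ⊢
    have k2 : (a.wd : ℝ) / D * wt c a.p ≤ (a.wn : ℝ) / D := by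
      calc (a.wd : ℝ) / D * wt c a.p ≤ (a.wd : ℝ) / D * ((a.wn : ℝ) / a.wd) :=
            mul_le_mul_of_nonneg_left hw1 (by positivity)
        _ = (a.wn : ℝ) / D := by field_simp
    have k3 : 0 ≤ 1 + (a.wn : ℝ) / D := by positivity
    have hDDn : 0 ≤ wt c a.p := by
      unfold wt
      positivity
    calc (SC : ℝ) * (DD c (nu W t) a.p (fun x => (x : ℝ)) * (1 + (a.wd : ℝ) / D * wt c a.p))
        = ((SC : ℝ) * DD c (nu W t) a.p (fun x => (x : ℝ))) *
          (1 + (a.wd : ℝ) / D * wt c a.p) := by ring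
      _ ≤ M1 * (1 + (a.wd : ℝ) / D * wt c a.p) :=
          mul_le_mul_of_nonneg_right h2 (by positivity)
      _ ≤ M1 * (1 + (a.wn : ℝ) / D) := mul_le_mul_of_nonneg_left (by linarith) hM10
      _ = M1 + (M1 * a.wn : ℝ) / D := by ring
      _ ≤ _ := by linarith
  · -- second moment
    rw [S2, hDDq a.p le_rfl, hnup]
    have k1 := le_cd (M2 * (a.wd * a.sn)) (D * a.sd)
    push_cast at k1 ⊢
    have k2 : (a.wd : ℝ) / D * wt2 c a.p ≤ (a.wd : ℝ) / D * ((a.sn : ℝ) / a.sd) :=
      mul_le_mul_of_nonneg_left hw2 (by positivity)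
    have hDDn : 0 ≤ wt2 c a.p := by
      unfold wt2
      positivity
    calc (SC : ℝ) * (DD c (nu W t) a.p (fun x => (x : ℝ) ^ 2) *
          (1 + (a.wd : ℝ) / D * wt2 c a.p))
        = ((SC : ℝ) * DD c (nu W t) a.p (fun x => (x : ℝ) ^ 2)) *
          (1 + (a.wd : ℝ) / D * wt2 c a.p) := by ring
      _ ≤ M2 * (1 + (a.wd : ℝ) / D * wt2 c a.p) :=
          mul_le_mul_of_nonneg_right h3 (by positivity)
      _ ≤ M2 * (1 + (a.wd : ℝ) / D * ((a.sn : ℝ) / a.sd)) :=
          mul_le_mul_of_nonneg_left (by linarith) hM20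
      _ = M2 + (M2 * (a.wd * a.sn) : ℝ) / (D * a.sd) := by
          field_simp
      _ ≤ _ := by linarith
  · -- cost
    have hfil : (range (a.p + 1)).filter Nat.Prime = insert a.p ((range a.p).filter Nat.Prime) := by
      rw [Finset.range_add_one, Finset.filter_insert, if_pos hp]
    have hcost : cost c W' t' (a.p + 1) = cost c W t a.p +
        W' a.p / (1 - W' a.p * t' a.p) *
          DD c (nu W' t') a.p (fun x => max 0 ((x : ℝ) - t' a.p)) := by
      unfold cost
      rw [hfil, Finset.sum_insert (by simp), add_comm]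
      congr 1
      refine Finset.sum_congr rfl fun q hq => ?_
      have hlt : q < a.p := by
        rw [Finset.mem_filter, Finset.mem_range] at hq
        exact hq.1
      rw [hWq q hlt, htq q hlt, hDDq q hlt.le]
    have hcoef : W' a.p / (1 - W' a.p * t' a.p) = (a.wn : ℝ) / D := by
      rw [hsub, hWp]
      field_simp
    have hfun : (fun x : ℕ => max 0 ((x : ℝ) - t' a.p)) =
        fun x : ℕ => 1 * (1 * (x : ℝ) + (-(a.t : ℝ)) * 1) + 1 * pt (a.t : ℝ) x := by
      funext x
      rw [htp]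
      unfold pt
      rcases le_total (x : ℝ) a.t with h | h
      · rw [max_eq_left (by linarith), max_eq_right (by linarith)]
        ring
      · rw [max_eq_right (by linarith), max_eq_left (by linarith)]
        ring
    have hval : (SC : ℝ) * DD c (nu W' t') a.p (fun x => max 0 ((x : ℝ) - t' a.p)) ≤
        (M1 : ℝ) + phi a.t 1 m - a.t * SC := by
      rw [hDDq a.p le_rfl, hfun, D1 c (nu W t) a.p (fun x => 1 * (x : ℝ) + (-(a.t : ℝ)) * 1)
        (fun x => pt (a.t : ℝ) x) 1 1,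
        D1 c (nu W t) a.p (fun x => (x : ℝ)) (fun _ => 1) 1 (-(a.t : ℝ)), D3]
      have h5 := h1 (a.t : ℝ) (by exact_mod_cast htC)
      have e6 : ((phi a.t 1 m : ℕ) : ℝ) = Phi m (pt (a.t : ℝ)) := by
        rw [A3]
        simp only [one_mul]
      have e7 : DD c (nu W t) a.p (fun x => pt (a.t : ℝ) x) = DD c (nu W t) a.p (pt (a.t : ℝ)) :=
        rfl
      rw [e6, e7]
      linarith
    rw [hcost, hcoef]
    have k1 := le_cd ((M1 + phi a.t 1 m - a.t * SC) * a.wn) D
    have k0 : (M1 : ℝ) + phi a.t 1 m - a.t * SC ≤ ((M1 + phi a.t 1 m - a.t * SC : ℕ) : ℝ) := by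
      have h6 : M1 + phi a.t 1 m ≤ (M1 + phi a.t 1 m - a.t * SC) + a.t * SC := by omega
      have h7 : ((M1 + phi a.t 1 m : ℕ) : ℝ) ≤
          (((M1 + phi a.t 1 m - a.t * SC) + a.t * SC : ℕ) : ℝ) := Nat.cast_le.2 h6
      rw [Nat.cast_add, Nat.cast_add, Nat.cast_mul] at h7
      linarith
    rw [Nat.cast_mul] at k1
    rw [Nat.cast_add]
    have k2 : (a.wn : ℝ) / D * ((SC : ℝ) *
        DD c (nu W' t') a.p (fun x => max 0 ((x : ℝ) - t' a.p))) ≤
        (a.wn : ℝ) / D * ((M1 + phi a.t 1 m - a.t * SC : ℕ) : ℝ) :=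
      mul_le_mul_of_nonneg_left (hval.trans k0) (by positivity)
    calc (SC : ℝ) * (cost c W t a.p + (a.wn : ℝ) / D *
          DD c (nu W' t') a.p (fun x => max 0 ((x : ℝ) - t' a.p)))
        = (SC : ℝ) * cost c W t a.p + (a.wn : ℝ) / D * ((SC : ℝ) *
          DD c (nu W' t') a.p (fun x => max 0 ((x : ℝ) - t' a.p))) := by ring
      _ ≤ T + (a.wn : ℝ) / D * ((M1 + phi a.t 1 m - a.t * SC : ℕ) : ℝ) := add_le_add h4 k2
      _ = T + (((M1 + phi a.t 1 m - a.t * SC : ℕ) : ℝ) * a.wn) / D := by ring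
      _ ≤ _ := by linarith

theorem smp (hD : DdpStmt) (hS : DdsStmt) (hM : MlaStmt) (hU : UpdStmt) (hB : BkiStmt) :
    SmpStmt := by
  intro c C L
  induction L with
  | nil =>
    intro n n' m M1 M2 T K hO hI hK
    obtain ⟨h1, h2⟩ := hO
    exact ⟨m, M1, M2, T, gap hB c C m M1 M2 T n n' h1 h2 hI, hK⟩
  | cons a L ih =>
    intro n n' m M1 M2 T K hO hI hK
    obtain ⟨h1, h2, h3, h4⟩ := hO
    have hI2 := gap hB c C m M1 M2 T n a.p h1 h2 hI
    have hI3 := step hD hS hM hU c C a h3 m M1 M2 T hI2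
    refine ih (a.p + 1) n' _ _ _ _ K h4 hI3 ?_
    simp only [small, sq_eq] at hK
    rw [hM.2.2.2.1] at hK
    exact hK

end Pool.Agent.COV.H4
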