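import Pool.Agent.COV.StmtsC
import Pool.Agent.Helper51_TTC.NA6

/-!
# Row CVT of squad COV (MP_160b6c_nt)
-/

set_option autoImplicit false

namespace Pool.Agent.COV.H4

open Polynomial NumberField Pool.Agent.TTC

theorem cvt (h1 : CvmStmt) (h2 : CvsStmt) : CvtStmt := by
  intro K _ _ n a α ha hsq hα hC
  obtain ⟨σ⟩ : Nonempty (K →+* ℂ) := inferInstance
  let _ : Algebra K ℂ := σ.toAlgebra
  let ψ : AlgebraicClosure K →ₐ[K] ℂ := IsAlgClosed.lift
  have hψ : ψ.toRingHom.comp (algebraMap K (AlgebraicClosure K)) = σ := by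
    ext x
    exact ψ.commutes x
  have na := TTC.H51.na6 K ℂ σ (fun i => ((a i : ℤ) : K))
  have ea : (fun i => σ ((a i : ℤ) : K)) = fun i => ((a i : ℤ) : ℂ) := by
    funext i
    exact map_intCast σ (a i)
  have hC2 : Cov n (TTC.om (fun i => ((a i : ℤ) : ℂ)) (σ α)) := by
    have h3 := h1.2 (AlgebraicClosure K) ℂ ψ.toRingHom n _ hC
    unfold acl at h3
    rw [Polynomial.map_map, hψ, ← na.2.2.2 α, ea] at h3
    exact h3
  have es : sext (fun i => ((a i : ℤ) : ℂ)) = (sext a).map (Int.castRingHom ℂ) := by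
    have h4 := (TTC.H51.na6 ℤ ℂ (Int.castRingHom ℂ) a).1
    simpa using h4
  have hcomp : (Int.castRingHom ℂ) = σ.comp (Int.castRingHom K) := Subsingleton.elim _ _
  have hroot : (sext (fun i => ((a i : ℤ) : ℂ))).eval (σ α) = 0 := by
    rw [es, hcomp, ← Polynomial.map_map, Polynomial.eval_map_apply, hα, map_zero]
  have hsep : ((sext a).map (Int.castRingHom ℂ)).Separable := by
    have h5 : ((sext a).map (Int.castRingHom ℚ)).Separable := PerfectField.separable_iff_squarefree.2 hsq
    have h6 := h5.map (f := algebraMap ℚ ℂ)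
    rw [Polynomial.map_map] at h6
    have h7 : (algebraMap ℚ ℂ).comp (Int.castRingHom ℚ) = Int.castRingHom ℂ :=
      Subsingleton.elim _ _
    rw [h7] at h6
    exact h6
  have hd : (derivative (sext (fun i => ((a i : ℤ) : ℂ)))).eval (σ α) ≠ 0 := by
    rw [es] at hroot ⊢
    intro h0
    obtain ⟨u, v, huv⟩ := hsep
    have h8 := congrArg (Polynomial.eval (σ α)) huv
    rw [eval_add, eval_mul, eval_mul, hroot, h0, mul_zero, mul_zero, add_zero, eval_one] at h8
    exact zero_ne_one h8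
  have h9 := h2 ℂ n (fun i => ((a i : ℤ) : ℂ)) (σ α) (by exact_mod_cast ha) hroot hd hC2
  rw [es] at h9
  exact h9

end Pool.Agent.COV.H4
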