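import Pool.Agent.Helper11_COV.Stmt

set_option autoImplicit false

/-!
Squad COV, module LEV (helper4): the cost of one level.
-/

namespace Pool.Agent.COV.H4

open Finset Classical

theorem BX_succ {a : ℕ → ℤ} {k d : ℕ} (hk : k ∈ d.primeFactors) (y : ℕ → ℕ) (r : ℕ) :
    BX a (k + 1) d (Function.update y k r) ↔
      BX a k d y ∧ (r : ℤ) ≡ a d [ZMOD ((k ^ d.factorization k : ℕ) : ℤ)] := by
  constructor
  · intro h
    refine ⟨fun p hp hpk => ?_, ?_⟩
    · have h1 := h p hp (by omega)
      rwa [Function.update_of_ne hpk.ne] at h1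
    · have h1 := h k hk (by omega)
      rwa [Function.update_self] at h1
  · rintro ⟨h1, h2⟩ p hp hpk
    rcases eq_or_ne p k with rfl | hne
    · rw [Function.update_self]
      exact h2
    · rw [Function.update_of_ne hne]
      exact h1 p hp (by omega)

theorem av_cn (X : Sys) (hc : ∀ d ∈ X.S, ∀ p, d.factorization p ≤ X.c p) {k : ℕ} (hk : k.Prime)
    (h4 : ∀ p e m r, p.Prime → e ≤ m →
      (((range (p ^ m)).filter (fun y : ℕ => (y : ℤ) ≡ r [ZMOD ((p ^ e : ℕ) : ℤ)])).card : ℝ) *
        (p : ℝ) ^ e = ((p ^ m : ℕ) : ℝ)) (y : ℕ → ℕ) :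
    av X.c k (fun z => (cn X k z : ℝ)) y =
      ∑ d ∈ (LS X.S k).filter (fun d => BX X.a k d y), 1 / (k : ℝ) ^ (d.factorization k) := by
  have hk0 : (0 : ℝ) < k := by exact_mod_cast hk.pos
  have hM : (0 : ℝ) < ((k ^ X.c k : ℕ) : ℝ) := by
    push_cast
    positivity
  unfold av
  rw [div_eq_iff hM.ne', Finset.sum_mul]
  have e1 : ∀ r : ℕ, ((cn X k (Function.update y k r) : ℕ) : ℝ) =
      ∑ d ∈ LS X.S k, if (BX X.a k d y ∧
        (r : ℤ) ≡ X.a d [ZMOD ((k ^ d.factorization k : ℕ) : ℤ)]) then (1 : ℝ) else 0 := by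
    intro r
    unfold cn
    rw [Finset.card_filter, Nat.cast_sum]
    refine Finset.sum_congr rfl fun d hd => ?_
    have hkd : k ∈ d.primeFactors := by
      unfold LS at hd
      exact (Finset.mem_filter.1 hd).2.1
    simp only [BX_succ hkd y r, Nat.cast_ite, Nat.cast_one, Nat.cast_zero]
  simp only [e1]
  rw [Finset.sum_comm, Finset.sum_filter]
  refine Finset.sum_congr rfl fun d hd => ?_
  by_cases hb : BX X.a k d y
  · have hdS : d ∈ X.S := by
      unfold LS at hd
      exact (Finset.mem_filter.1 hd).1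
    simp only [hb, true_and, if_true]
    have h := h4 k (d.factorization k) (X.c k) (X.a d) hk (hc d hdS k)
    rw [← h, Finset.card_filter]
    push_cast
    have hne : (k : ℝ) ^ d.factorization k ≠ 0 := by positivity
    field_simp
  · simp only [hb, false_and, if_false]
    simp

theorem lev (hA : AvrStmt) (hP : PopStmt) : LevStmt := by
  intro X hδ hc k hk x v
  obtain ⟨-, -, h3, h4⟩ := hA X hδ
  obtain ⟨p1, p2, -, -⟩ := hP X hδ
  have hd : 0 < 1 - X.δ k := by linarith [(hδ k).2]
  have e1 : PO X (k + 1) (fun y => (cn X k y : ℝ)) x =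
      PO X k (fun x => av X.c k (fun y => rho X k y * (cn X k y : ℝ)) x) x := by
    simp only [PO]
    rw [if_pos hk]
  have e2 : ∀ y, max 0 (av X.c k (fun z => (cn X k z : ℝ)) y - X.δ k) = HH X k (X.δ k) k y v := by
    intro y
    rw [av_cn X hc hk h4 y]
    unfold HH
    congr 3
    refine Finset.filter_congr fun d _ => ?_
    constructor
    · intro h
      exact ⟨h, fun p _ h1 h2 => absurd h2 (not_lt.2 h1)⟩
    · exact fun h => h.1
  rw [e1]
  calc PO X k (fun x => av X.c k (fun y => rho X k y * (cn X k y : ℝ)) x) x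
      ≤ PO X k (fun y => 1 / (1 - X.δ k) * HH X k (X.δ k) k y v + 0 * HH X k (X.δ k) k y v) x := by
        refine p1 _ _ _ _ fun y => ?_
        refine (h3 k y hk).trans (le_of_eq ?_)
        rw [e2 y]
        ring
    _ = 1 / (1 - X.δ k) * PO X k (fun y => HH X k (X.δ k) k y v) x := by
        rw [p2]
        ring

end Pool.Agent.COV.H4
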